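import Mathlib
import Pool.Agent.Helper39_W1.Final

set_option autoImplicit false

noncomputable section

namespace Pool.Agent.Results.MP_3b6af3_al.WittOneBasis

universe u

/-- The Lie algebra `W_1` of all `F`-linear derivations of the polynomial ring `F[x]`, with the
commutator bracket. -/
abbrev WOne (F : Type u) [Field F] : Type u := Derivation F (Polynomial F) (Polynomial F)

/-- The element `u` of the free Lie algebra `L(X)` on countably many letters is an identity of
the Lie algebra `A`: it is killed by every homomorphism `L(X) → A`. -/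
def IsIdentity {F : Type u} [Field F] (A : Type u) [LieRing A] [LieAlgebra F A]
    (u : FreeLieAlgebra F ℕ) : Prop :=
  ∀ φ : FreeLieAlgebra F ℕ →ₗ⁅F⁆ A, φ u = 0

/-- A T-ideal of `L(X)`: an ideal stable under all endomorphisms of `L(X)`. -/
def IsTIdeal {F : Type u} [Field F] (I : LieIdeal F (FreeLieAlgebra F ℕ)) : Prop :=
  ∀ φ : FreeLieAlgebra F ℕ →ₗ⁅F⁆ FreeLieAlgebra F ℕ, ∀ u ∈ I, φ u ∈ I

/-- The smallest T-ideal of `L(X)` containing the set `S`. -/
def TIdeal {F : Type u} [Field F] (S : Set (FreeLieAlgebra F ℕ)) :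
    LieIdeal F (FreeLieAlgebra F ℕ) :=
  sInf {I | IsTIdeal I ∧ S ⊆ (I : Set (FreeLieAlgebra F ℕ))}

/-- The standard Lie polynomial of degree five:
the sum over the permutations `σ` of `{0,1,2,3}` of `sgn σ [y_σ0,[y_σ1,[y_σ2,[y_σ3,y_4]]]]`. -/
def standardFive (F : Type u) [Field F] : FreeLieAlgebra F ℕ :=
  ∑ σ : Equiv.Perm (Fin 4), ((Equiv.Perm.sign σ : ℤˣ) : ℤ) •
    ⁅FreeLieAlgebra.of F (σ 0 : ℕ), ⁅FreeLieAlgebra.of F (σ 1 : ℕ), ⁅FreeLieAlgebra.of F (σ 2 : ℕ),
      ⁅FreeLieAlgebra.of F (σ 3 : ℕ), FreeLieAlgebra.of F 4⁆⁆⁆⁆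

/-- Over every field `F` of characteristic zero, the standard Lie identity of degree five is a
basis of the identities of `W_1 = Der F[x]`: the ideal of all the identities of `W_1` is the
T-ideal generated by `standardFive F`. -/
theorem result (F : Type u) [Field F] [CharZero F] :
    {u : FreeLieAlgebra F ℕ | IsIdentity (WOne F) u} =
      (TIdeal {standardFive F} : Set (FreeLieAlgebra F ℕ)) := by
  ext u
  exact Helper39W1.final u

end Pool.Agent.Results.MP_3b6af3_al.WittOneBasis
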